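import Pool.Agent.K1H53.BI.Plan2

set_option autoImplicit false

/-!
# Pieces QP, ABEL and ABF of the project BI
-/

open scoped ENNReal
open Finset

namespace Pool.Agent.K1H21.BI

open Pool.Agent.K1H53.BI

theorem run_succ' (κ : St → PMF St) (s : St) (n : ℕ) :
    run κ s (n + 1) = (κ s).bind (fun s' => run κ s' n) := by
  induction n generalizing s with
  | zero =>
    change (PMF.pure s).bind κ = (κ s).bind (fun s' => PMF.pure s')
    rw [PMF.pure_bind, PMF.bind_pure]
  | succ n ih =>
    change (run κ s (n + 1)).bind κ = (κ s).bind (fun s' => (run κ s' n).bind κ)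
    rw [ih, PMF.bind_bind]

theorem Ex_sum {α : Type} (p : PMF α) (S : Finset ℕ) (h : ℕ → α → ℝ≥0∞) :
    Ex p (fun a => ∑ k ∈ S, h k a) = ∑ k ∈ S, Ex p (h k) := by
  classical
  induction S using Finset.induction_on with
  | empty => simp only [sum_empty]; exact Ex_const p 0
  | insert k S hk ih =>
    simp only [sum_insert hk]
    rw [Ex_add, ih]

theorem Ex_tsum {α : Type} (p : PMF α) (h : ℕ → α → ℝ≥0∞) :
    Ex p (fun a => ∑' k, h k a) = ∑' k, Ex p (h k) := by
  unfold Ex
  simp only [← ENNReal.tsum_mul_left]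
  exact ENNReal.tsum_comm

theorem step_fin (ν : PMF ℕ) (s : St) (h : Fin' s) : step ν s = PMF.pure s := by
  unfold step
  rw [dif_pos h.1, if_pos h.2]

theorem qq_zero (ν : PMF ℕ) (G : Finset V → Prop) (s : St) (h : ¬ Fin' s) : qq ν G 0 s = 0 := by
  change ind (fun s => Fin' s ∧ G s.A) s = 0
  unfold ind
  rw [if_neg (fun h' => h h'.1)]

theorem qq_succ_fin (ν : PMF ℕ) (G : Finset V → Prop) (n : ℕ) (s : St) (h : Fin' s) :
    qq ν G (n + 1) s = 0 := by
  unfold qq
  rw [if_pos h]

theorem qq_succ (ν : PMF ℕ) (G : Finset V → Prop) (n : ℕ) (s : St) (h : ¬ Fin' s) :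
    qq ν G (n + 1) s = Ex (step ν s) (qq ν G n) := by
  conv_lhs => unfold qq
  rw [if_neg h]

theorem psum_eq (ν : PMF ℕ) (G : Finset V → Prop) (n : ℕ) : ∀ s : St,
    Ex (run (step ν) s n) (ind fun s => Fin' s ∧ G s.A) = ∑ k ∈ range (n + 1), qq ν G k s := by
  induction n with
  | zero =>
    intro s
    change Ex (PMF.pure s) _ = _
    rw [Ex_pure, sum_range_one]
    rfl
  | succ n ih =>
    intro s
    rw [run_succ', Ex_bind]
    simp only [ih]
    by_cases h : Fin' s
    · rw [step_fin ν s h, Ex_pure, sum_range_succ _ (n + 1), qq_succ_fin ν G n s h, add_zero]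
    · rw [Ex_sum, sum_range_succ' _ (n + 1), qq_zero ν G s h, add_zero]
      refine sum_congr rfl (fun k _ => ?_)
      rw [qq_succ ν G k s h]

theorem t_QP : S_QP := by
  intro ν G s
  unfold Phi
  simp only [psum_eq]
  rw [ENNReal.tsum_eq_iSup_nat]
  have hm : Monotone (fun n => ∑ k ∈ range n, qq ν G k s) := by
    intro a b hab
    exact sum_le_sum_of_subset (range_mono hab)
  exact hm.iSup_nat_add 1

theorem t_ABEL : S_ABEL := by
  intro hQS hQI hQP ν G
  refine ⟨?_, ?_, ?_⟩
  · intro s s' hs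
    rw [hQP, hQP]
    exact tsum_congr (fun n => hQS ν G n s s' hs)
  · intro x s
    have h1 : Phi ν G = fun s => ∑' n, qq ν G n s := funext (hQP ν G)
    rw [h1]
    simp only
    rw [Ex_tsum, tsum_eq_zero_add' ENNReal.summable, qq_zero, zero_add]
    · exact tsum_congr (fun n => (hQI ν G n s).1 x)
    · intro h
      exact absurd h.1 (List.cons_ne_nil _ _)
  · intro s hs
    rw [hQP, hQP, tsum_eq_zero_add' ENNReal.summable, qq_zero, zero_add]
    · exact tsum_congr (fun n => (hQI ν G n s).2 hs)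
    · intro h
      exact absurd h.2 (by omega)

theorem step_inv (hA : C_ABEL) (ν : PMF ℕ) (G : Finset V → Prop) (R : ℕ) (s : St) :
    Ex (stepF ν R s) (Phi ν G) = Phi ν G s := by
  obtain ⟨h1, h2, h3⟩ := hA ν G
  unfold stepF
  by_cases h : Act R s
  · rw [if_pos h, ← h2]
    apply h1
    have hsel : sel R s ∈ s.L := by
      unfold sel
      rw [dif_pos h]
      exact h.choose_spec.1
    refine ⟨rfl, ?_, rfl⟩
    exact (List.perm_cons_erase hsel).symm
  · rw [if_neg h]
    by_cases hm : s.m = 0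
    · rw [if_pos hm, Ex_pure]
    · rw [if_neg hm, Ex_pure, ← h3 s (Nat.pos_of_ne_zero hm)]

theorem t_ABF : S_ABF := by
  intro hA ν G R n s₀
  induction n with
  | zero =>
    change _ = Ex (PMF.pure s₀) _
    rw [Ex_pure]
  | succ n ih =>
    change _ = Ex ((run (stepF ν R) s₀ n).bind (stepF ν R)) _
    rw [Ex_bind]
    simp only [step_inv hA]
    exact ih

end Pool.Agent.K1H21.BI
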